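import Pool.Agent.N325.FC.Stm

/-!
# Project FC: lower bound of the potential
-/

set_option autoImplicit false

open Filter Topology MeasureTheory
open scoped ENNReal

namespace Pool.Agent.N607.FC

theorem anti {s : ℝ} (hs : 0 < s) {x d : ℝ} (hd : 0 < d) (h : x ≤ d) :
    ENNReal.ofReal (d ^ (-s)) ≤ (ENNReal.ofReal x) ^ (-s) := by
  rw [← ENNReal.ofReal_rpow_of_pos hd, ENNReal.rpow_neg, ENNReal.rpow_neg]
  exact ENNReal.inv_le_inv.2 (ENNReal.rpow_le_rpow (ENNReal.ofReal_le_ofReal h) hs.le)

theorem two_pt {s : ℝ} (hs : 0 < s) {a b : ℝ} (ha : 0 < a) (hb : 0 < b) :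
    2 * ((a + b) / 2) ^ (-s) ≤ a ^ (-s) + b ^ (-s) := by
  have h1 : a ^ (-s) = (a ^ (-s / 2)) ^ 2 := by
    rw [← Real.rpow_natCast, ← Real.rpow_mul ha.le]
    congr 1
    push_cast
    ring
  have h2 : b ^ (-s) = (b ^ (-s / 2)) ^ 2 := by
    rw [← Real.rpow_natCast, ← Real.rpow_mul hb.le]
    congr 1
    push_cast
    ring
  have h3 : ((a + b) / 2) ^ (-s) = (((a + b) / 2) ^ 2) ^ (-s / 2) := by
    rw [← Real.rpow_natCast ((a + b) / 2) 2, ← Real.rpow_mul (by positivity)]
    congr 1
    push_cast
    ring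
  have h4 : (((a + b) / 2) ^ 2) ^ (-s / 2) ≤ (a * b) ^ (-s / 2) := by
    refine Real.rpow_le_rpow_of_nonpos (by positivity) ?_ (by linarith)
    nlinarith [sq_nonneg (a - b)]
  rw [Real.mul_rpow ha.le hb.le] at h4
  rw [h1, h2, h3]
  nlinarith [sq_nonneg (a ^ (-s / 2) - b ^ (-s / 2))]

theorem pot : Pool.Agent.N325.FC.StmPOT := by
  classical
  intro s hs M m hM hm τ hτ B p r y hp hcase
  set e : ℤ := ⌊y / τ⌋ with he
  have hy1 : (e : ℝ) * τ ≤ y := by
    have := Int.floor_le (y / τ)
    rwa [le_div_iff₀ hτ] at this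
  have hy2 : y < ((e : ℝ) + 1) * τ := by
    have := Int.lt_floor_add_one (y / τ)
    rwa [div_lt_iff₀ hτ] at this
  have hm0 : (0 : ℝ) < m := by exact_mod_cast hm
  have hmτ : 0 < (m : ℝ) * τ := by positivity
  have hpos : 0 ≤ ((m : ℝ) * τ) ^ (-s) := by positivity
  by_cases hB : e ∈ B
  · refine le_trans ?_ (Finset.single_le_sum (f := fun i => (ENNReal.ofReal |y - p i|) ^ (-s))
      (fun i _ => zero_le) hB)
    obtain ⟨h1, h2⟩ := hp e hB
    have h3 : |y - p e| ≤ τ := by
      rw [abs_le]
      constructor <;> nlinarith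
    refine le_trans (ENNReal.ofReal_le_ofReal ?_) (anti hs hτ h3)
    refine le_trans (mul_le_mul_of_nonneg_right (min_le_left _ _) hpos) (le_of_eq ?_)
    rw [Real.mul_rpow hm0.le hτ.le, ← mul_assoc, ← Real.rpow_add hm0, add_neg_cancel,
      Real.rpow_zero, one_mul]
  · have hc := hcase.resolve_left hB
    set a : ℤ := (e - r) % m with ha
    have hmZ : (0 : ℤ) < m := by exact_mod_cast hm
    have ha0 : 0 ≤ a := Int.emod_nonneg _ hmZ.ne'
    have ha1 : a < m := Int.emod_lt_of_pos _ hmZ
    have hdiv : (m : ℤ) ∣ e - a - r := by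
      have h1 : (m : ℤ) ∣ (e - r) - a := by
        rw [ha]
        exact Int.dvd_self_sub_emod
      have h2 : e - a - r = (e - r) - a := by ring
      rwa [h2]
    set l : ℕ → ℤ := fun j => e - a - (j : ℤ) * m with hl
    set q : ℕ → ℤ := fun j => e - a + ((j : ℤ) + 1) * m with hq
    have hJ : ∀ j < M, (0 : ℤ) ≤ (j : ℤ) * m ∧ (j : ℤ) * m + m ≤ (M : ℤ) * m := by
      intro j hj
      refine ⟨by positivity, ?_⟩
      have h1 : ((j : ℤ) + 1) * m ≤ (M : ℤ) * m :=
        mul_le_mul_of_nonneg_right (by exact_mod_cast hj) hmZ.le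
      linarith
    have hlB : ∀ j < M, l j ∈ B := by
      intro j hj
      obtain ⟨h1, h2⟩ := hJ j hj
      refine hc _ ?_ ?_
      · rw [abs_le]
        simp only [hl]
        constructor <;> linarith
      · have h3 : l j - r = (e - a - r) - (j : ℤ) * m := by
          simp only [hl]
          ring
        rw [h3]
        exact dvd_sub hdiv (Dvd.intro_left _ rfl)
    have hqB : ∀ j < M, q j ∈ B := by
      intro j hj
      obtain ⟨h1, h2⟩ := hJ j hj
      refine hc _ ?_ ?_
      · rw [abs_le]
        simp only [hq]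
        constructor <;> linarith
      · have h3 : q j - r = (e - a - r) + ((j : ℤ) + 1) * m := by
          simp only [hq]
          ring
        rw [h3]
        exact dvd_add hdiv (Dvd.intro_left _ rfl)
    have hlinj : Function.Injective l := by
      intro i j hij
      simp only [hl] at hij
      have h1 : (i : ℤ) * m = (j : ℤ) * m := by linarith
      exact_mod_cast mul_right_cancel₀ hmZ.ne' h1
    have hqinj : Function.Injective q := by
      intro i j hij
      simp only [hq] at hij
      have h1 : ((i : ℤ) + 1) * m = ((j : ℤ) + 1) * m := by linarith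
      have h2 := mul_right_cancel₀ hmZ.ne' h1
      exact_mod_cast add_right_cancel h2
    have hdisj : Disjoint ((Finset.range M).image l) ((Finset.range M).image q) := by
      rw [Finset.disjoint_left]
      intro x hx hx'
      obtain ⟨i, hi, rfl⟩ := Finset.mem_image.1 hx
      obtain ⟨j, hj, hij⟩ := Finset.mem_image.1 hx'
      simp only [hl, hq] at hij
      have h1 := (hJ i (Finset.mem_range.1 hi)).1
      have h2 := (hJ j (Finset.mem_range.1 hj)).1
      nlinarith
    have hsub : (Finset.range M).image l ∪ (Finset.range M).image q ⊆ B := by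
      intro x hx
      rcases Finset.mem_union.1 hx with h | h
      · obtain ⟨i, hi, rfl⟩ := Finset.mem_image.1 h
        exact hlB i (Finset.mem_range.1 hi)
      · obtain ⟨i, hi, rfl⟩ := Finset.mem_image.1 h
        exact hqB i (Finset.mem_range.1 hi)
    refine le_trans ?_ (Finset.sum_le_sum_of_subset hsub)
    rw [Finset.sum_union hdisj, Finset.sum_image hlinj.injOn, Finset.sum_image hqinj.injOn,
      ← Finset.sum_add_distrib]
    have hterm : ∀ j ∈ Finset.range M,
        ENNReal.ofReal (2 * (((j : ℝ) + 1 / 2 + 1 / m) ^ (-s) * ((m : ℝ) * τ) ^ (-s))) ≤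
        (ENNReal.ofReal |y - p (l j)|) ^ (-s) + (ENNReal.ofReal |y - p (q j)|) ^ (-s) := by
      intro j hj
      rw [Finset.mem_range] at hj
      obtain ⟨h1, h2⟩ := hJ j hj
      have haR0 : (0 : ℝ) ≤ a := by exact_mod_cast ha0
      have haR1 : (a : ℝ) + 1 ≤ m := by exact_mod_cast ha1
      have hj0 : (0 : ℝ) ≤ j := Nat.cast_nonneg j
      have hJR : (0 : ℝ) ≤ (j : ℝ) * m := by positivity
      set d₁ : ℝ := ((a : ℝ) + (j : ℝ) * m + 1) * τ with hd₁
      set d₂ : ℝ := (((j : ℝ) + 1) * m - a + 1) * τ with hd₂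
      have hd₁0 : 0 < d₁ := by positivity
      have hd₂0 : 0 < d₂ := by
        refine mul_pos ?_ hτ
        nlinarith
      have hdl : |y - p (l j)| ≤ d₁ := by
        obtain ⟨h3, h4⟩ := hp _ (hlB j hj)
        have h5 : ((l j : ℤ) : ℝ) = (e : ℝ) - a - (j : ℝ) * m := by
          simp only [hl]
          push_cast
          ring
        rw [h5] at h3 h4
        rw [abs_le, hd₁]
        constructor <;> nlinarith
      have hdq : |y - p (q j)| ≤ d₂ := by
        obtain ⟨h3, h4⟩ := hp _ (hqB j hj)
        have h5 : ((q j : ℤ) : ℝ) = (e : ℝ) - a + ((j : ℝ) + 1) * m := by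
          simp only [hq]
          push_cast
          ring
        rw [h5] at h3 h4
        have h6 : 0 ≤ (((j : ℝ) + 1) * m - a) * τ := by
          refine mul_nonneg ?_ hτ.le
          nlinarith
        rw [abs_le, hd₂]
        constructor <;> nlinarith
      refine le_trans ?_ (add_le_add (anti hs hd₁0 hdl) (anti hs hd₂0 hdq))
      rw [← ENNReal.ofReal_add (by positivity) (by positivity)]
      refine ENNReal.ofReal_le_ofReal ?_
      refine le_trans (le_of_eq ?_) (two_pt hs hd₁0 hd₂0)
      rw [← Real.mul_rpow (by positivity) hmτ.le]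
      congr 2
      rw [hd₁, hd₂]
      field_simp
      ring
    refine le_trans ?_ (Finset.sum_le_sum hterm)
    rw [← ENNReal.ofReal_sum_of_nonneg (fun j _ => by positivity)]
    refine ENNReal.ofReal_le_ofReal ?_
    refine le_trans (mul_le_mul_of_nonneg_right (min_le_right _ _) hpos) (le_of_eq ?_)
    rw [← Finset.mul_sum, ← Finset.sum_mul]
    ring

end Pool.Agent.N607.FC
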